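import Pool.Agent.Results.MP_c7d465_al.NoBound

/-!
Every positive integer is the least number of system normalizers whose intersection is the
hypercentre, for a suitable finite soluble group: for `n ≥ 2` the group of block matrices
`[[1, a, c], [0, I, b], [0, 0, e]]` over the field with three elements, with `a` a row and `b` a
column of length `n - 1`.
-/

set_option autoImplicit false

open Pointwise
open Pool.Agent.Results.MP_c7d465_al.NoBound

namespace Pool.Agent.Results.MP_c7d465_al.EveryValue

section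
variable {m : ℕ}

/-- the involutions -/
def tb (β : Fin m → ZMod 3) : HG m := ⟨0, β, 0, -1⟩

theorem tb_sq (β : Fin m → ZMod 3) : tb β * tb β = 1 := by
  ext i
  · simp [tb]
  · simp [tb]
  · simp [tb]
  · simp [tb]

/-- a Sylow subgroup for the prime two -/
theorem exists_sylow (β : Fin m → ZMod 3) : ∃ P : Sylow 2 (HG m),
    tb β ∈ (P : Subgroup (HG m)) ∧ ∀ s ∈ (P : Subgroup (HG m)), s = 1 ∨ s = tb β := by
  have h1 : IsPGroup 2 (Subgroup.zpowers (tb β)) := by
    intro g
    refine ⟨1, Subtype.ext ?_⟩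
    obtain ⟨k, hk⟩ := Subgroup.mem_zpowers_iff.1 g.2
    show (g : HG m) ^ 2 ^ 1 = 1
    rw [← hk, pow_one, ← zpow_natCast, ← zpow_mul, mul_comm, zpow_mul]
    have : tb β ^ ((2 : ℕ) : ℤ) = 1 := by
      rw [zpow_natCast, pow_two, tb_sq]
    rw [this, one_zpow]
  obtain ⟨P, hP⟩ := h1.exists_le_sylow
  have h2 : tb β ∈ (P : Subgroup (HG m)) := hP (Subgroup.mem_zpowers _)
  refine ⟨P, h2, ?_⟩
  obtain ⟨t, ht, h3⟩ := HG.two_subgroup (P : Subgroup (HG m)) P.isPGroup'
  have h4 : tb β = t := by
    rcases h3 _ h2 with h | h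
    · exfalso
      have h5 : (-1 : (ZMod 3)ˣ) = 1 := congrArg HG.e h
      exact absurd h5 (by decide)
    · exact h
  rw [h4]
  exact h3

open Classical in
/-- the Sylow system with a given involution -/
noncomputable def sys (β : Fin m → ZMod 3) : (p : Nat.Primes) → Sylow p (HG m) :=
  Function.update (fun _ => default) ⟨2, Nat.prime_two⟩ (exists_sylow β).choose

theorem sys_two (β : Fin m → ZMod 3) :
    sys β ⟨2, Nat.prime_two⟩ = (exists_sylow β).choose := by
  classical
  exact Function.update_self (f := fun p : Nat.Primes => (default : Sylow p (HG m)))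
    (⟨2, Nat.prime_two⟩ : Nat.Primes) (exists_sylow β).choose

/-- elements of the system normalizer commute with the involution -/
theorem comm_of_mem {β : Fin m → ZMod 3} {x : HG m} (hx : x ∈ systemNormalizer (sys β)) :
    x * tb β = tb β * x := by
  rw [systemNormalizer, Subgroup.mem_iInf] at hx
  have h1 := hx ⟨2, Nat.prime_two⟩
  rw [sys_two] at h1
  obtain ⟨h2, h3⟩ := (exists_sylow β).choose_spec
  have h4 := (Subgroup.mem_normalizer_iff.1 h1 (tb β)).1 h2
  rcases h3 _ h4 with h | h
  · exfalso
    have h5 : tb β = 1 := by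
      have : x * tb β * x⁻¹ = x * 1 * x⁻¹ := by rw [h]; group
      have h6 := mul_left_cancel (mul_right_cancel this)
      exact h6
    have h7 : (-1 : (ZMod 3)ˣ) = 1 := congrArg HG.e h5
    exact absurd h7 (by decide)
  · rw [mul_inv_eq_iff_eq_mul] at h
    exact h

end

/-- the systems: the involutions with `β = 0` and `β` a unit vector -/
noncomputable def systems (m : ℕ) (i : Fin (m + 1)) : (p : Nat.Primes) → Sylow p (HG m) :=
  sys (Fin.cases (motive := fun _ => Fin m → ZMod 3) 0 (fun j => Pi.single j 1) i)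

theorem inf_systems {m : ℕ} (hm : 0 < m) :
    hypercentre (HG m) = ⨅ i, systemNormalizer (systems m i) := by
  rw [HG.hypercentre_eq_bot, eq_comm, eq_bot_iff]
  intro x hx
  rw [Subgroup.mem_iInf] at hx
  rw [Subgroup.mem_bot]
  have h0 : x * tb 0 = tb 0 * x := comm_of_mem (hx 0)
  have h1 : ∀ j : Fin m, x * tb (Pi.single j 1) = tb (Pi.single j 1) * x := fun j =>
    comm_of_mem (hx j.succ)
  have hc0 := congrArg HG.c h0
  have hb0 := congrArg HG.b h0
  simp [tb] at hc0 hb0
  have hc : x.c = 0 := HG.self_neg hc0.symm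
  have hb : x.b = 0 := by
    funext i
    have := congrFun hb0 i
    simp at this
    exact HG.self_neg this.symm
  have ha : x.a = 0 := by
    funext j
    have := congrArg HG.c (h1 j)
    simp [tb, hc] at this
    exact this
  have he : x.e = 1 := by
    have h2 := congrFun (congrArg HG.b (h1 ⟨0, hm⟩)) ⟨0, hm⟩
    simp [tb, hb] at h2
    apply Units.ext
    first
    | exact h2
    | exact h2.symm
  ext i
  · simp [ha]
  · simp [hb]
  · simp [hc]
  · simp [he]

/-- few system normalizers do not suffice -/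
theorem few {m k : ℕ} (hk : 0 < k) (hkm : k ≤ m) (S : Fin k → (p : Nat.Primes) → Sylow p (HG m)) :
    hypercentre (HG m) ≠ ⨅ i, systemNormalizer (S i) := by
  have hm : 0 < m := lt_of_lt_of_le hk hkm
  -- repeat the first system
  let g : Fin m → Fin k := fun i => if h : (i : ℕ) < k then ⟨i, h⟩ else ⟨0, hk⟩
  have hg : Function.Surjective g := by
    intro j
    refine ⟨⟨j, lt_of_lt_of_le j.2 hkm⟩, ?_⟩
    simp only [g]
    rw [dif_pos j.2]
  have h1 : ⨅ i, systemNormalizer (S i) = ⨅ i, systemNormalizer (S (g i)) :=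
    (hg.iInf_comp fun j => systemNormalizer (S j)).symm
  rw [h1]
  intro heq
  have hchoose : ∀ i, ∃ t : HG m, t.e = -1 ∧
      ∀ s ∈ (S (g i) ⟨2, Nat.prime_two⟩ : Subgroup (HG m)), s = 1 ∨ s = t :=
    fun i => HG.two_subgroup _ (S (g i) ⟨2, Nat.prime_two⟩).isPGroup'
  choose t hte ht using hchoose
  obtain ⟨a, ha0, ha⟩ := HG.exists_common hm (fun i => (t i).b)
  let v : HG m := ⟨a, 0, -(a ⬝ᵥ (t ⟨0, hm⟩).b), 1⟩
  have hcomm : ∀ i, v * t i = t i * v := by
    intro i
    have e3 : (3 : ZMod 3) = 0 := rfl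
    ext j
    · show a j + (t i).a j = (t i).a j + a j
      ring
    · simp [v, hte i]
    · have h1 := ha i
      simp only [HG.mul_c, v, hte i, HG.neg_one_val, dotProduct_zero, Units.val_one]
      linear_combination h1 + (a ⬝ᵥ (t ⟨0, hm⟩).b) * e3
    · simp [v]
  have hmem : v ∈ ⨅ i, systemNormalizer (S (g i)) := by
    rw [Subgroup.mem_iInf]
    intro i
    rw [systemNormalizer, Subgroup.mem_iInf]
    intro p
    by_cases hp : (p : ℕ) = 2
    · have hp' : p = ⟨2, Nat.prime_two⟩ := Subtype.ext hp
      subst hp'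
      apply HG.mem_normalizer_of_comm
      intro s hs
      rcases ht i s hs with h | h
      · rw [h, mul_one, one_mul]
      · rw [h]; exact hcomm i
    · exact HG.mem_normalizer_odd p.2 hp _ _
  rw [← heq, HG.hypercentre_eq_bot, Subgroup.mem_bot] at hmem
  exact ha0 (congrArg HG.a hmem)

/-- For every positive integer `n` there is a finite soluble group for which `n` is the least
number of system normalizers whose intersection is the hypercentre. -/
theorem result : ∀ n : ℕ, 0 < n →
    ∃ (G : Type) (_ : Group G) (_ : Finite G) (_ : Group.IsSolvable G),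
      (∃ S : Fin n → (p : Nat.Primes) → Sylow p G, (∀ i, IsSylowSystem (S i)) ∧
        hypercentre G = ⨅ i, systemNormalizer (S i)) ∧
      ∀ k : ℕ, 0 < k → k < n → ∀ S : Fin k → (p : Nat.Primes) → Sylow p G,
        (∀ i, IsSylowSystem (S i)) → hypercentre G ≠ ⨅ i, systemNormalizer (S i) := by
  intro n hn
  rcases Nat.lt_or_ge n 2 with h | h
  · -- the trivial group
    have hn1 : n = 1 := by omega
    subst hn1
    refine ⟨Multiplicative (Fin 1), inferInstance, inferInstance, inferInstance,
      ⟨fun _ _ => default, fun i p q => ?_, Subsingleton.elim _ _⟩, fun k h1 h2 => by omega⟩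
    ext x
    constructor
    · rintro ⟨a, ha, b, hb, rfl⟩
      exact ⟨1, Subgroup.one_mem _, 1, Subgroup.one_mem _, Subsingleton.elim _ _⟩
    · rintro ⟨a, ha, b, hb, rfl⟩
      exact ⟨1, Subgroup.one_mem _, 1, Subgroup.one_mem _, Subsingleton.elim _ _⟩
  · obtain ⟨m, rfl⟩ : ∃ m, n = m + 1 := ⟨n - 1, by omega⟩
    exact ⟨HG m, inferInstance, inferInstance, inferInstance,
      ⟨systems m, fun i => HG.isSylowSystem_all _, inf_systems (by omega)⟩,
      fun k h1 h2 S _ => few h1 (by omega) S⟩

end Pool.Agent.Results.MP_c7d465_al.EveryValue
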